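import Pool.Agent.R904.RW.Defs

/-!
# Direct sums of regulators
-/

set_option autoImplicit false

open scoped TensorProduct

universe u v w

namespace Pool.Agent.R904.RW

lemma ext_tmul {M : Type v} [AddCommGroup M] [Module ℚ M] {D : Type w} [AddCommGroup D]
    [Module ℝ D] (r : M →+ D) (a : ℝ) (m : M) : ext r (a ⊗ₜ m) = a • r m := rfl

section Abs

variable {A A₁ D D₁ : Type*} [AddCommGroup A] [Module ℝ A] [AddCommGroup A₁] [Module ℝ A₁]
  [AddCommGroup D] [Module ℝ D] [AddCommGroup D₁] [Module ℝ D₁] {ι : Type} {A' D' : ι → Type*}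
  [∀ a, AddCommGroup (A' a)] [∀ a, Module ℝ (A' a)] [∀ a, AddCommGroup (D' a)]
  [∀ a, Module ℝ (D' a)] {T : A →ₗ[ℝ] D} {T₁ : A₁ →ₗ[ℝ] D₁} {T' : ∀ a, A' a →ₗ[ℝ] D' a}
  (F : A ≃ₗ[ℝ] (A₁ × ∀ a, A' a)) (g : (D₁ × ∀ a, D' a) ≃ₗ[ℝ] D)
  (h : ∀ z, T z = g (T₁ (F z).1, fun a => T' a ((F z).2 a)))

include h

lemma T_eq : (T : A → D) = g ∘ Prod.map T₁ (Pi.map fun a => T' a) ∘ F := by
  funext z
  rw [h z]
  rfl

lemma inj_iff : Function.Injective T ↔
    Function.Injective T₁ ∧ ∀ a, Function.Injective (T' a) := by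
  rw [T_eq F g h]
  rw [EquivLike.comp_injective, EquivLike.injective_comp, Prod.map_injective, Pi.map_injective]

lemma bij_iff : Function.Bijective T ↔
    Function.Bijective T₁ ∧ ∀ a, Function.Bijective (T' a) := by
  rw [T_eq F g h]
  rw [EquivLike.comp_bijective, EquivLike.bijective_comp, Prod.map_bijective]
  refine and_congr_right fun _ => ⟨fun h1 a => ?_, fun h1 => ?_⟩
  · classical
    refine ⟨(Pi.map_injective.1 h1.1) a, fun y => ?_⟩
    obtain ⟨x, hx⟩ := h1.2 (Pi.single a y)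
    refine ⟨x a, ?_⟩
    have := congrFun hx a
    simpa using this
  · exact Function.Bijective.piMap h1

lemma exact_iff (h0 : ∀ a, Subsingleton (D' a)) :
    (Function.Injective T ∧ ∃ φ : D →ₗ[ℝ] ℝ, Function.Exact T φ ∧ Function.Surjective φ) ↔
    (Function.Injective T₁ ∧ ∃ φ : D₁ →ₗ[ℝ] ℝ, Function.Exact T₁ φ ∧ Function.Surjective φ) ∧
      ∀ a, Function.Bijective (T' a) := by
  have hb : (∀ a, Function.Bijective (T' a)) ↔ ∀ a, Function.Injective (T' a) := by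
    refine forall_congr' fun a => ⟨fun h => h.1, fun h => ⟨h, fun y => ⟨0, ?_⟩⟩⟩
    have := h0 a
    exact Subsingleton.elim _ _
  rw [hb, inj_iff F g h]
  constructor
  · rintro ⟨⟨h1, h2⟩, φ, h3, h4⟩
    refine ⟨⟨h1, φ ∘ₗ g.toLinearMap ∘ₗ LinearMap.inl ℝ D₁ (∀ a, D' a), ?_, ?_⟩, h2⟩
    · intro y
      change φ (g (y, 0)) = 0 ↔ _
      rw [h3 (g (y, 0))]
      constructor
      · rintro ⟨z, hz⟩
        rw [h z] at hz
        have h5 := g.injective hz
        rw [Prod.mk.injEq] at h5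
        exact ⟨(F z).1, h5.1⟩
      · rintro ⟨x, rfl⟩
        refine ⟨F.symm (x, 0), ?_⟩
        rw [h, F.apply_symm_apply]
        congr 1
        refine Prod.ext rfl ?_
        funext a
        exact map_zero (T' a)
    · intro y
      obtain ⟨x, hx⟩ := h4 y
      refine ⟨(g.symm x).1, ?_⟩
      change φ (g ((g.symm x).1, 0)) = y
      rw [← hx]
      congr 1
      have : ((g.symm x).1, (0 : ∀ a, D' a)) = g.symm x := by
        refine Prod.ext rfl ?_
        funext a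
        have := h0 a
        exact Subsingleton.elim _ _
      rw [this, g.apply_symm_apply]
  · rintro ⟨⟨h1, φ, h3, h4⟩, h2⟩
    refine ⟨⟨h1, h2⟩, φ ∘ₗ LinearMap.fst ℝ D₁ (∀ a, D' a) ∘ₗ g.symm.toLinearMap, ?_, ?_⟩
    · intro y
      change φ (g.symm y).1 = 0 ↔ _
      rw [h3]
      constructor
      · rintro ⟨x, hx⟩
        refine ⟨F.symm (x, 0), ?_⟩
        rw [h, F.apply_symm_apply]
        apply g.symm.injective
        rw [g.symm_apply_apply]
        refine Prod.ext hx ?_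
        funext a
        have := h0 a
        exact Subsingleton.elim _ _
      · rintro ⟨z, hz⟩
        refine ⟨(F z).1, ?_⟩
        rw [← hz, h z, g.symm_apply_apply]
    · intro y
      obtain ⟨x, hx⟩ := h4 y
      refine ⟨g (x, 0), ?_⟩
      change φ (g.symm (g (x, 0))).1 = y
      rw [g.symm_apply_apply]
      exact hx

end Abs

section Sum

variable {M : Type v} [AddCommGroup M] [Module ℚ M] {D : Type w} [AddCommGroup D] [Module ℝ D]
  {M₁ : Type v} [AddCommGroup M₁] [Module ℚ M₁] {D₁ : Type w} [AddCommGroup D₁] [Module ℝ D₁]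
  {ι : Type} [Finite ι] {M' : ι → Type v} {D' : ι → Type w} [∀ a, AddCommGroup (M' a)]
  [∀ a, Module ℚ (M' a)] [∀ a, AddCommGroup (D' a)] [∀ a, Module ℝ (D' a)]
  {r : M →+ D} {r₁ : M₁ →+ D₁} {r' : ∀ a, M' a →+ D' a}

lemma IsSum.exists_equiv (h : IsSum r r₁ r') :
    ∃ (F : (ℝ ⊗[ℚ] M) ≃ₗ[ℝ] ((ℝ ⊗[ℚ] M₁) × ∀ a, ℝ ⊗[ℚ] M' a)) (g : (D₁ × ∀ a, D' a) ≃ₗ[ℝ] D),
      ∀ z, ext r z = g (ext r₁ (F z).1, fun a => ext (r' a) ((F z).2 a)) := by
  classical
  have := Fintype.ofFinite ι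
  obtain ⟨f, g, hfg⟩ := h
  refine ⟨(LinearEquiv.baseChange ℚ ℝ M (M₁ × ∀ a, M' a) f.symm).trans
    ((TensorProduct.prodRight ℚ ℝ ℝ M₁ (∀ a, M' a)).trans
      ((LinearEquiv.refl ℝ (ℝ ⊗[ℚ] M₁)).prodCongr (TensorProduct.piRight ℚ ℝ ℝ M'))), g, ?_⟩
  intro z
  induction z using TensorProduct.induction_on with
  | zero =>
    simp only [map_zero, Prod.fst_zero, Prod.snd_zero, Pi.zero_apply]
    exact (map_zero g).symm
  | add x y hx hy =>
    rw [map_add, hx, hy, ← map_add]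
    congr 1
    refine Prod.ext ?_ ?_
    · simp only [Prod.fst_add, map_add]
    · funext a
      simp only [Prod.snd_add, map_add, Pi.add_apply]
  | tmul a m =>
    rw [ext_tmul]
    obtain ⟨⟨x, y⟩, rfl⟩ := f.surjective m
    rw [hfg, ← map_smul]
    congr 1
    refine Prod.ext ?_ ?_
    · simp [ext_tmul]
    · funext b
      simp [ext_tmul]

theorem IsSum.iso_iff (h : IsSum r r₁ r') : Iso r ↔ Iso r₁ ∧ ∀ a, Iso (r' a) := by
  obtain ⟨F, g, hF⟩ := h.exists_equiv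
  exact bij_iff F g hF

theorem IsSum.exact_iff (h : IsSum r r₁ r') (h0 : ∀ a, Subsingleton (D' a)) :
    ExactSeq r ↔ ExactSeq r₁ ∧ ∀ a, Iso (r' a) := by
  obtain ⟨F, g, hF⟩ := h.exists_equiv
  exact RW.exact_iff F g hF h0

end Sum

end Pool.Agent.R904.RW
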