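import Pool.Agent.H914R2.Weil
import Mathlib

/-!
# Regulators on integral motivic cohomology in weight `dim + 1`: definitions

`𝒱` is a class of smooth projective varieties over `ℚ` closed under products. The integral motivic
cohomology `M X p q = H^p_M(X_{/ℤ}, ℚ(q))`, the real Deligne cohomology
`D X p q = H^p_D(X_{/ℝ}, ℝ(q))` and the regulators between them are given by their formal properties.
-/

set_option autoImplicit false

open Pool.Agent.H914 Pool.Agent.H914.VarClass Pool.Agent.H914.VarClass.Obj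
open scoped TensorProduct

universe u v w

namespace Pool.Agent.R904.RW

section Alg

/-- The `ℝ`-linear extension `ℝ ⊗ M → D` of `r : M → D`. -/
noncomputable def ext {M : Type v} [AddCommGroup M] [Module ℚ M] {D : Type w} [AddCommGroup D]
    [Module ℝ D] (r : M →+ D) : ℝ ⊗[ℚ] M →ₗ[ℝ] D :=
  letI : Module ℚ D := Module.compHom D (algebraMap ℚ ℝ)
  haveI : IsScalarTower ℚ ℝ D := ⟨fun a b x => by rw [Algebra.smul_def, mul_smul]; rfl⟩
  LinearMap.liftBaseChange ℝ r.toRatLinearMap

variable {M : Type v} [AddCommGroup M] [Module ℚ M] {D : Type w} [AddCommGroup D] [Module ℝ D]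

/-- The `ℝ`-linear extension of `r` is an isomorphism. -/
def Iso (r : M →+ D) : Prop := Function.Bijective (ext r)

/-- There is an exact sequence `0 → ℝ ⊗ M → D → ℝ → 0`, whose first map is the extension of `r`.
(Here `ℝ = CH^0(X)^*_ℝ` for a connected variety `X`.) -/
def ExactSeq (r : M →+ D) : Prop :=
  Function.Injective (ext r) ∧
    ∃ φ : D →ₗ[ℝ] ℝ, Function.Exact (ext r) φ ∧ Function.Surjective φ

variable {M₁ : Type v} [AddCommGroup M₁] [Module ℚ M₁] {D₁ : Type w} [AddCommGroup D₁] [Module ℝ D₁]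

/-- The map `r` is the direct sum of `r₁` and the finitely many maps `r' a`, up to isomorphisms. -/
def IsSum {ι : Type} {M' : ι → Type v} {D' : ι → Type w} [∀ a, AddCommGroup (M' a)]
    [∀ a, Module ℚ (M' a)] [∀ a, AddCommGroup (D' a)] [∀ a, Module ℝ (D' a)]
    (r : M →+ D) (r₁ : M₁ →+ D₁) (r' : ∀ a, M' a →+ D' a) : Prop :=
  ∃ (f : (M₁ × ∀ a, M' a) ≃ₗ[ℚ] M) (g : (D₁ × ∀ a, D' a) ≃ₗ[ℝ] D),
    ∀ x y, r (f (x, y)) = g (r₁ x, fun a => r' a (y a))

end Alg

variable {k : Type u} [Field k]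

/-- Integral motivic cohomology, real Deligne cohomology, and the regulators. -/
structure RegData (𝒱 : VarClass k) where
  M : 𝒱.Obj → ℤ → ℤ → Type v
  [mGroup : ∀ X p q, AddCommGroup (M X p q)]
  [mModule : ∀ X p q, Module ℚ (M X p q)]
  D : 𝒱.Obj → ℤ → ℤ → Type w
  [dGroup : ∀ X p q, AddCommGroup (D X p q)]
  [dModule : ∀ X p q, Module ℝ (D X p q)]
  reg : ∀ X p q, M X p q →+ D X p q

attribute [instance] RegData.mGroup RegData.mModule RegData.dGroup RegData.dModule

variable {𝒱 : VarClass k} (R : RegData.{u, v, w} 𝒱)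

/-- The formal properties for the class `S`: `S` is closed under products with the projective line
`L`, `H^p(X × L, q) = H^p(X, q) ⊕ H^(p-2)(X, q-1)`, and the Deligne cohomology `D X p q` vanishes for
`p > 2 dim X + 1`. -/
structure IsRegTheory (L : 𝒱.Obj) (S : Set 𝒱.Obj) : Prop where
  dim : L.dim = 1
  closed : ∀ X ∈ S, X.prod L ∈ S
  line : ∀ X ∈ S, ∀ p q, IsSum (R.reg (X.prod L) p q) (R.reg X p q)
    fun _ : Unit => R.reg X (p - 2) (q - 1)
  top : ∀ X ∈ S, ∀ p q, 2 * (X.dim : ℤ) + 1 < p → Subsingleton (R.D X p q)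

/-- `X'` behaves like the blow-up of `X` along `Y`, which has codimension `c ≥ 2`:
`H^p(X', q) = H^p(X, q) ⊕ ⨁ H^(p-2a)(Y, q-a)`, where `0 < a < c`. -/
structure IsBlowUp (X' X Y : 𝒱.Obj) (c : ℕ) : Prop where
  two_le : 2 ≤ c
  dim : X.dim = Y.dim + c
  dim' : X'.dim = X.dim
  sum : ∀ p q, IsSum (R.reg X' p q) (R.reg X p q)
    fun a : Fin (c - 1) => R.reg Y (p - 2 * (a + 1)) (q - (a + 1))

/-- Q1 for `X`. Here `d = dim X + 1`: the regulator in weight `d` is an isomorphism in degree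
`2 d - 1 - i` for all `i ≥ 1`, and there is an exact sequence in degree `2 d - 1`. -/
def Q1 (X : 𝒱.Obj) : Prop :=
  (∀ i : ℕ, 1 ≤ i → Iso (R.reg X (2 * (X.dim + 1) - 1 - i) (X.dim + 1))) ∧
    ExactSeq (R.reg X (2 * (X.dim + 1) - 1) (X.dim + 1))

/-- The regulators in the weights `q > dim X + 1` are isomorphisms in all degrees `p < 2 q`. -/
def HighWeights (X : 𝒱.Obj) : Prop :=
  ∀ q : ℤ, (X.dim : ℤ) + 1 < q → ∀ p < 2 * q, Iso (R.reg X p q)

/-- The varieties obtained from those in `Q` by a chain of blow-ups and blow-downs with centers in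
`S`. -/
inductive Chain (S Q : Set 𝒱.Obj) : 𝒱.Obj → Prop
  | base (X : 𝒱.Obj) : X ∈ Q → Chain S Q X
  | up (X' X Y : 𝒱.Obj) (c : ℕ) : IsBlowUp R X' X Y c → Y ∈ S → Chain S Q X → Chain S Q X'
  | down (X' X Y : 𝒱.Obj) (c : ℕ) : IsBlowUp R X' X Y c → Y ∈ S → Chain S Q X' → Chain S Q X

/-- `T` is a class of varieties in `S` closed under products with `L`, which contains for every `X` in
`S` a blow-up of some `P` along `X`; all members of `T` are obtained from members of `Q` by chains of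
blow-ups and blow-downs, and Q1 holds for those. (For example `T` are the rational varieties and `Q`
the projective spaces.) -/
structure IsRatClass (L : 𝒱.Obj) (S T Q : Set 𝒱.Obj) : Prop where
  sub : T ⊆ S
  closed : ∀ X ∈ T, X.prod L ∈ T
  blowUp : ∀ X ∈ S, ∃ B ∈ T, ∃ P c, IsBlowUp R B P X c
  known : ∀ P ∈ Q, Q1 R P
  chain : ∀ X ∈ T, Chain R S Q X

end Pool.Agent.R904.RW
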