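import Pool.Agent.R904.RW.Lin

/-!
# Regulators in weight `dim + 1`, higher weights, and rational varieties
-/

set_option autoImplicit false

open Pool.Agent.H914 Pool.Agent.H914.VarClass Pool.Agent.H914.VarClass.Obj
open scoped TensorProduct

universe u v w

namespace Pool.Agent.R904.RW

section Swap

variable {M : Type v} [AddCommGroup M] [Module ℚ M] {D : Type w} [AddCommGroup D] [Module ℝ D]
  {M₁ : Type v} [AddCommGroup M₁] [Module ℚ M₁] {D₁ : Type w} [AddCommGroup D₁] [Module ℝ D₁]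
  {M₂ : Type v} [AddCommGroup M₂] [Module ℚ M₂] {D₂ : Type w} [AddCommGroup D₂] [Module ℝ D₂]
  {r : M →+ D} {r₁ : M₁ →+ D₁} {r₂ : M₂ →+ D₂}

theorem IsSum.swap (h : IsSum r r₁ fun _ : Unit => r₂) : IsSum r r₂ fun _ : Unit => r₁ := by
  obtain ⟨f, g, hfg⟩ := h
  refine ⟨(((LinearEquiv.refl ℚ M₂).prodCongr (LinearEquiv.funUnique Unit ℚ M₁)).trans
      ((LinearEquiv.prodComm ℚ M₂ M₁).trans
      ((LinearEquiv.refl ℚ M₁).prodCongr (LinearEquiv.funUnique Unit ℚ M₂).symm))).trans f,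
    (((LinearEquiv.refl ℝ D₂).prodCongr (LinearEquiv.funUnique Unit ℝ D₁)).trans
      ((LinearEquiv.prodComm ℝ D₂ D₁).trans
      ((LinearEquiv.refl ℝ D₁).prodCongr (LinearEquiv.funUnique Unit ℝ D₂).symm))).trans g, ?_⟩
  intro x y
  exact hfg _ _

end Swap

variable {k : Type u} [Field k] {𝒱 : VarClass k} {R : RegData.{u, v, w} 𝒱} {L X X' Y : 𝒱.Obj}
  {S : Set 𝒱.Obj} {c : ℕ}

variable (R) in
/-- the regulator in weight `q` is an isomorphism in all degrees `p < 2 q` -/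
def Hi (X : 𝒱.Obj) (q : ℤ) : Prop := ∀ p < 2 * q, Iso (R.reg X p q)

lemma highWeights_iff : HighWeights R X ↔ ∀ q : ℤ, (X.dim : ℤ) + 1 < q → Hi R X q := Iff.rfl

lemma q1_iff : Q1 R X ↔ (∀ p < 2 * (X.dim : ℤ) + 1, Iso (R.reg X p (X.dim + 1))) ∧
    ExactSeq (R.reg X (2 * (X.dim : ℤ) + 1) (X.dim + 1)) := by
  have e : 2 * ((X.dim : ℤ) + 1) - 1 = 2 * (X.dim : ℤ) + 1 := by ring
  unfold Q1
  rw [e]
  refine and_congr_left fun _ => ⟨fun h p hp => ?_, fun h i hi => h _ (by omega)⟩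
  have h1 := h (2 * (X.dim : ℤ) + 1 - p).toNat (by omega)
  have e1 : 2 * (X.dim : ℤ) + 1 - ((2 * (X.dim : ℤ) + 1 - p).toNat : ℤ) = p := by omega
  rwa [e1] at h1

section Line

variable (hR : IsRegTheory R L S) (hX : X ∈ S)
include hR hX

lemma dim_line : ((X.prod L).dim : ℤ) = X.dim + 1 := by
  rw [dim_prod, hR.dim]
  push_cast
  ring

lemma hi_line (q : ℤ) : Hi R (X.prod L) q ↔ Hi R X q ∧ Hi R X (q - 1) := by
  constructor
  · intro h
    refine ⟨fun p hp => ((hR.line X hX p q).iso_iff.1 (h p hp)).1, fun p hp => ?_⟩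
    have h1 := ((hR.line X hX (p + 2) q).iso_iff.1 (h (p + 2) (by omega))).2 ()
    have e : p + 2 - 2 = p := by ring
    rwa [e] at h1
  · rintro ⟨h1, h2⟩ p hp
    exact (hR.line X hX p q).iso_iff.2 ⟨h1 p hp, fun _ => h2 (p - 2) (by omega)⟩

lemma q1_line : Q1 R (X.prod L) ↔ Q1 R X ∧ Hi R X (X.dim + 2) := by
  rw [q1_iff, q1_iff, dim_line hR hX]
  have e1 : (X.dim : ℤ) + 1 + 1 = X.dim + 2 := by ring
  rw [e1]
  have e2 : (X.dim : ℤ) + 2 - 1 = X.dim + 1 := by ring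
  have e3 : 2 * ((X.dim : ℤ) + 1) + 1 - 2 = 2 * X.dim + 1 := by ring
  have hs := (hR.line X hX (2 * ((X.dim : ℤ) + 1) + 1) (X.dim + 2)).swap
  rw [e2, e3] at hs
  have h0 : ∀ _ : Unit, Subsingleton (R.D X (2 * ((X.dim : ℤ) + 1) + 1) (X.dim + 2)) :=
    fun _ => hR.top X hX _ _ (by omega)
  rw [hs.exact_iff h0]
  constructor
  · rintro ⟨h1, h2, h3⟩
    refine ⟨⟨fun p hp => ?_, h2⟩, fun p hp => ?_⟩
    · have h4 := ((hR.line X hX (p + 2) (X.dim + 2)).iso_iff.1 (h1 (p + 2) (by omega))).2 ()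
      have e : p + 2 - 2 = p := by ring
      rwa [e, e2] at h4
    · by_cases hp' : p = 2 * ((X.dim : ℤ) + 1) + 1
      · rw [hp']
        exact h3 ()
      · exact ((hR.line X hX p (X.dim + 2)).iso_iff.1 (h1 p (by omega))).1
  · rintro ⟨⟨h1, h2⟩, h3⟩
    refine ⟨fun p hp => (hR.line X hX p (X.dim + 2)).iso_iff.2 ⟨h3 p (by omega), fun _ => ?_⟩, h2,
      fun _ => h3 _ (by omega)⟩
    have h4 := h1 (p - 2) (by omega)
    rw [← e2] at h4
    exact h4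

omit hX

/-- `X × L^n` -/
noncomputable def pow (L X : 𝒱.Obj) : ℕ → 𝒱.Obj
  | 0 => X
  | n + 1 => (pow L X n).prod L

omit hR in
lemma pow_mem {T : Set 𝒱.Obj} (hT : ∀ X ∈ T, X.prod L ∈ T) (hX : X ∈ T) (n : ℕ) :
    pow L X n ∈ T := by
  induction n with
  | zero => exact hX
  | succ n ih => exact hT _ ih

lemma dim_pow (hX : X ∈ S) (n : ℕ) : ((pow L X n).dim : ℤ) = X.dim + n := by
  induction n with
  | zero => simp [pow]
  | succ n ih =>
    have h := dim_line hR (pow_mem (L := L) hR.closed hX n)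
    change (((pow L X n).prod L).dim : ℤ) = _
    rw [h, ih]
    push_cast
    ring

lemma q1_of_pow (hX : X ∈ S) (n : ℕ) (h : Q1 R (pow L X n)) : Q1 R X := by
  induction n with
  | zero => exact h
  | succ n ih => exact ih ((q1_line hR (pow_mem hR.closed hX n)).1 h).1

lemma hi_of_pow (hX : X ∈ S) (n : ℕ) (q : ℤ) (h : Hi R (pow L X n) q) : Hi R X q := by
  induction n with
  | zero => exact h
  | succ n ih => exact ih ((hi_line hR (pow_mem hR.closed hX n) q).1 h).1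

/-- `Q1` for `X × L^(n+1)` gives the weight `dim X + n + 2` of `X`. -/
lemma hi_of_q1_pow (hX : X ∈ S) (n : ℕ) (h : Q1 R (pow L X (n + 1))) :
    Hi R X (X.dim + n + 2) := by
  have h1 := ((q1_line hR (pow_mem hR.closed hX n)).1 h).2
  rw [dim_pow hR hX n] at h1
  exact hi_of_pow hR hX n _ h1

theorem highWeights_of_q1 {T : Set 𝒱.Obj} (hTS : T ⊆ S) (hT : ∀ X ∈ T, X.prod L ∈ T)
    (h : ∀ X ∈ T, Q1 R X) (hX : X ∈ T) : HighWeights R X := by
  rw [highWeights_iff]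
  intro q hq
  have h1 := hi_of_q1_pow hR (hTS hX) (q - X.dim - 2).toNat
    (h _ (pow_mem hT hX ((q - X.dim - 2).toNat + 1)))
  have e : (X.dim : ℤ) + ((q - X.dim - 2).toNat : ℤ) + 2 = q := by omega
  rwa [e] at h1

theorem all_iff_high : (∀ X ∈ S, Q1 R X) ↔ ∀ X ∈ S, Q1 R X ∧ HighWeights R X :=
  ⟨fun h _ hX => ⟨h _ hX, highWeights_of_q1 hR (fun _ h => h) hR.closed h hX⟩,
    fun h X hX => (h X hX).1⟩

theorem all_iff_large (N : ℕ) : (∀ X ∈ S, Q1 R X) ↔ ∀ X ∈ S, N ≤ X.dim → Q1 R X := by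
  refine ⟨fun h X hX _ => h X hX, fun h X hX => ?_⟩
  refine q1_of_pow hR hX N (h _ (pow_mem hR.closed hX N) ?_)
  have := dim_pow hR hX N
  omega

end Line

section BlowUp

variable (hR : IsRegTheory R L S) (hB : IsBlowUp R X' X Y c)
include hB

lemma hi_blowUp (q : ℤ) :
    Hi R X' q ↔ Hi R X q ∧ ∀ a : Fin (c - 1), Hi R Y (q - (a + 1)) := by
  constructor
  · intro h
    refine ⟨fun p hp => ((hB.sum p q).iso_iff.1 (h p hp)).1, fun a p hp => ?_⟩
    have h1 := ((hB.sum (p + 2 * (a + 1)) q).iso_iff.1 (h (p + 2 * (a + 1)) (by omega))).2 a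
    have e : p + 2 * ((a : ℤ) + 1) - 2 * (a + 1) = p := by ring
    rwa [e] at h1
  · rintro ⟨h1, h2⟩ p hp
    exact (hB.sum p q).iso_iff.2 ⟨h1 p hp, fun a => h2 a _ (by omega)⟩

include hR

lemma q1_blowUp (hY : Y ∈ S) :
    Q1 R X' ↔ Q1 R X ∧ ∀ a : Fin (c - 1), Hi R Y (X.dim - a) := by
  rw [q1_iff, q1_iff, hB.dim']
  have hdim : (X.dim : ℤ) = Y.dim + c := by exact_mod_cast hB.dim
  have h0 : ∀ a : Fin (c - 1), Subsingleton (R.D Y (2 * (X.dim : ℤ) + 1 - 2 * (a + 1))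
      ((X.dim : ℤ) + 1 - (a + 1))) := by
    intro a
    apply hR.top Y hY
    have := a.2
    omega
  rw [(hB.sum (2 * (X.dim : ℤ) + 1) (X.dim + 1)).exact_iff h0]
  constructor
  · rintro ⟨h1, h2, h3⟩
    refine ⟨⟨fun p hp => ((hB.sum p _).iso_iff.1 (h1 p hp)).1, h2⟩, fun a p hp => ?_⟩
    have e1 : (X.dim : ℤ) + 1 - (a + 1) = X.dim - a := by ring
    by_cases hp' : p = 2 * (X.dim : ℤ) + 1 - 2 * (a + 1)
    · have h4 := h3 a
      rw [e1, ← hp'] at h4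
      exact h4
    · have h4 := ((hB.sum (p + 2 * (a + 1)) _).iso_iff.1 (h1 (p + 2 * (a + 1)) (by omega))).2 a
      have e : p + 2 * ((a : ℤ) + 1) - 2 * (a + 1) = p := by ring
      rwa [e, e1] at h4
  · rintro ⟨⟨h1, h2⟩, h3⟩
    refine ⟨fun p hp => (hB.sum p _).iso_iff.2 ⟨h1 p hp, fun a => ?_⟩, h2, fun a => ?_⟩
    · have h4 := h3 a (p - 2 * (a + 1)) (by omega)
      have e1 : (X.dim : ℤ) - a = X.dim + 1 - (a + 1) := by ring
      rwa [e1] at h4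
    · have h4 := h3 a (2 * (X.dim : ℤ) + 1 - 2 * (a + 1)) (by omega)
      have e1 : (X.dim : ℤ) - a = X.dim + 1 - (a + 1) := by ring
      rwa [e1] at h4

lemma q1_iff_of_high (hY : Y ∈ S) (h : HighWeights R Y) : Q1 R X' ↔ Q1 R X := by
  rw [q1_blowUp hR hB hY]
  have hdim : (X.dim : ℤ) = Y.dim + c := by exact_mod_cast hB.dim
  refine ⟨fun h1 => h1.1, fun h1 => ⟨h1, fun a => highWeights_iff.1 h _ ?_⟩⟩
  have := a.2
  omega

end BlowUp

section Chains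

variable (hR : IsRegTheory R L S)
include hR

theorem chain_iff_of_high (hS : ∀ Y ∈ S, HighWeights R Y) {X₀ X : 𝒱.Obj}
    (h : Chain R S {X₀} X) : Q1 R X ↔ Q1 R X₀ := by
  induction h with
  | base X hX => rw [Set.mem_singleton_iff.1 hX]
  | up X' X Y c hB hY _ ih => rw [q1_iff_of_high hR hB hY (hS Y hY), ih]
  | down X' X Y c hB hY _ ih => rw [← q1_iff_of_high hR hB hY (hS Y hY), ih]

lemma chain_q1 (hS : ∀ Y ∈ S, HighWeights R Y) {Q : Set 𝒱.Obj} (hQ : ∀ P ∈ Q, Q1 R P)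
    {X : 𝒱.Obj} (h : Chain R S Q X) : Q1 R X := by
  induction h with
  | base X hX => exact hQ X hX
  | up X' X Y c hB hY _ ih => exact (q1_iff_of_high hR hB hY (hS Y hY)).2 ih
  | down X' X Y c hB hY _ ih => exact (q1_iff_of_high hR hB hY (hS Y hY)).1 ih

omit hR in
lemma chain_dim {X₀ X : 𝒱.Obj} (h : Chain R S {X₀} X) : X.dim = X₀.dim := by
  induction h with
  | base X hX => rw [Set.mem_singleton_iff.1 hX]
  | up X' X Y c hB hY _ ih => rw [hB.dim', ih]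
  | down X' X Y c hB hY _ ih => rw [← hB.dim', ih]

/-- birational invariance, if the lower dimensions are known -/
lemma q1_iff_of_lower {X' X Y : 𝒱.Obj} {c : ℕ} (hB : IsBlowUp R X' X Y c) (hY : Y ∈ S)
    (h : ∀ Z ∈ S, Z.dim < X.dim → Q1 R Z) : Q1 R X' ↔ Q1 R X := by
  rw [q1_blowUp hR hB hY]
  have hdim : (X.dim : ℤ) = Y.dim + c := by exact_mod_cast hB.dim
  refine ⟨fun h1 => h1.1, fun h1 => ⟨h1, fun a => ?_⟩⟩
  have ha := a.2
  have h2 := hi_of_q1_pow hR hY (c - 2 - a) (h _ (pow_mem hR.closed hY _) (by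
    have := dim_pow hR hY (c - 2 - a + 1)
    omega))
  have e : (Y.dim : ℤ) + ((c - 2 - a : ℕ) : ℤ) + 2 = X.dim - a := by omega
  rwa [e] at h2

theorem chain_iff_of_lower {X₀ X : 𝒱.Obj} (h : ∀ Z ∈ S, Z.dim < X₀.dim → Q1 R Z)
    (hc : Chain R S {X₀} X) : Q1 R X ↔ Q1 R X₀ := by
  induction hc with
  | base X hX => rw [Set.mem_singleton_iff.1 hX]
  | up X' X Y c hB hY hch ih =>
    rw [q1_iff_of_lower hR hB hY (by rw [chain_dim hch]; exact h), ih]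
  | down X' X Y c hB hY hch ih =>
    rw [← q1_iff_of_lower hR hB hY (by rw [← hB.dim', chain_dim hch]; exact h), ih]

/-- Rational varieties correspond to the higher weights of all varieties. -/
theorem rational_iff {T Q : Set 𝒱.Obj} (hTS : T ⊆ S) (hT : ∀ X ∈ T, X.prod L ∈ T)
    (hB : ∀ X ∈ S, ∃ B ∈ T, ∃ P c, IsBlowUp R B P X c) (hQ : ∀ P ∈ Q, Q1 R P)
    (hc : ∀ X ∈ T, Chain R S Q X) :
    (∀ X ∈ T, Q1 R X) ↔ ∀ X ∈ S, HighWeights R X := by
  constructor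
  · intro h X hX
    obtain ⟨B, hBT, P, c, hBX⟩ := hB X hX
    have h1 := (q1_blowUp hR hBX hX).1 (h B hBT)
    have h2 := highWeights_iff.1 (highWeights_of_q1 hR hTS hT h hBT)
    have hc := hBX.two_le
    have hdim : (P.dim : ℤ) = X.dim + c := by exact_mod_cast hBX.dim
    rw [highWeights_iff]
    intro q hq
    by_cases hq' : q = X.dim + 2
    · have h3 := h1.2 ⟨c - 2, by omega⟩
      have e : (P.dim : ℤ) - ((⟨c - 2, by omega⟩ : Fin (c - 1)) : ℕ) = q := by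
        simp only []
        omega
      rwa [e] at h3
    · have h3 := ((hi_blowUp hBX (q + c - 1)).1 (h2 _ (by rw [hBX.dim']; omega))).2
        ⟨c - 2, by omega⟩
      have e : q + (c : ℤ) - 1 - (((⟨c - 2, by omega⟩ : Fin (c - 1)) : ℕ) + 1) = q := by
        simp only []
        omega
      rwa [e] at h3
  · intro h X hX
    exact chain_q1 hR h hQ (hc X hX)

theorem all_iff_classes {T Q S₀ : Set 𝒱.Obj} (hTS : T ⊆ S) (hT : ∀ X ∈ T, X.prod L ∈ T)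
    (hB : ∀ X ∈ S, ∃ B ∈ T, ∃ P c, IsBlowUp R B P X c) (hQ : ∀ P ∈ Q, Q1 R P)
    (hc : ∀ X ∈ T, Chain R S Q X) (hS₀ : S₀ ⊆ S) (h0 : ∀ X ∈ S, ∃ X₀ ∈ S₀, Chain R S {X₀} X) :
    (∀ X ∈ S, Q1 R X) ↔ (∀ X ∈ T, Q1 R X) ∧ ∀ X ∈ S₀, Q1 R X := by
  constructor
  · intro h
    exact ⟨fun X hX => h X (hTS hX), fun X hX => h X (hS₀ hX)⟩
  · rintro ⟨h1, h2⟩ X hX
    obtain ⟨X₀, hX₀, hch⟩ := h0 X hX
    exact (chain_iff_of_high hR ((rational_iff hR hTS hT hB hQ hc).1 h1) hch).2 (h2 X₀ hX₀)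

end Chains

end Pool.Agent.R904.RW
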